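import Pool.Agent.Results.MP_4eb8d9_nt.RationalsInWindows
import Pool.Agent.X283.DA.Pack
import Pool.Agent.TH201.LW.Few2
import Pool.Agent.X218.RC.RectDim

/-!
# The Lang-Waldschmidt inequality for products with the denominators of good approximations

Call a natural number `q` good if for ALL rational numbers `Λ ≠ 1` with denominator `q` or height `q`, ALL representations
`Λ = a_1 ^ b_1 ⋯ a_m ^ b_m` (any `m`) with nonzero integers and all `ε ≥ 0` one has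
`|Λ - 1| ≥ B / (|b_1 ⋯ b_m| |a_1 ⋯ a_m|) ^ (1 + ε)`: the inequality of Q1 with `C(ε) = 1`, also for `ε = 0`.
For `θ_1 + ... + θ_D > 1/2`, all `y ∈ ℝ ^ D` and almost all `x ∈ ℝ ^ D` all large `q` such that `q x_i` is within
`q ^ (-θ_i)` of `y_i` modulo `1` for all `i` are good; in dimension one the exceptional set has Hausdorff dimension at
most `3 / (2 (1 + θ))`. The number of exceptions is from the starting result `FewExceptions`.

Let `m ≥ 1`, `κ ≥ 0`, `y ∈ ℝ ^ m` and `θ > 1/2 + m κ`. For almost all `x ∈ ℝ ^ m` and all `A`, all but finitely many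
tuples `(q_1, …, q_m)` of natural numbers such that `q_j x_j` is within `A q_j ^ (-θ)` of `y_j` modulo `1` for each `j` have
the following property: for ALL integers `a_j = ± q_j`, ALL nonzero integers `b_j` with `|b_j| ≤ (q_1 ⋯ q_m) ^ κ` and all
`ε ≥ 0` one has `|a_1 ^ b_1 ⋯ a_m ^ b_m - 1| ≥ (1/2) ^ m B / (|b_1 ⋯ b_m| |a_1 ⋯ a_m|) ^ (1 + ε)`: the inequality of Q1
with `C(ε) = 1/2`, also for `ε = 0`. The `q_j` are chosen independently of each other. The number of exceptions with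
`q_1 ⋯ q_m ≤ X` is at most `X ^ (1/2 + m κ + ε)` by the starting module `Pool.Agent.TH201.LW.Few2`.
-/

set_option autoImplicit false

open Finset MeasureTheory
open scoped ENNReal

namespace Pool.Agent.Results.MP_4eb8d9_nt.Denominators

open FewExceptions (Fails Exceptional)
open Pool.Agent.X149.MetricBalls (Sparse)
open Pool.Agent.X283.DA (sparse_of_nat pack)

/-- the Lang-Waldschmidt inequality with constant `1` for all rational numbers `L ≠ 1` with denominator or height `q` -/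
def Good (q : ℕ) : Prop :=
  ∀ L : ℚ, L ≠ 1 → (L.den = q ∨ max L.num.natAbs L.den = q) →
    ∀ (ε : ℝ) (m : ℕ) (a b : Fin m → ℤ), 0 ≤ ε → (∀ j, a j ≠ 0) → (∀ j, b j ≠ 0) →
      ∏ j, ((a j : ℚ) ^ (b j)) = L →
      ((univ.sup fun j => (b j).natAbs : ℕ) : ℝ) /
        ((∏ j, |((b j : ℤ) : ℝ)|) * (∏ j, |((a j : ℤ) : ℝ)|)) ^ (1 + ε) ≤ |(L : ℝ) - 1|

lemma sparse : Pool.Agent.X283.DA.Sparse {q | ¬ Good q} (1 / 2) := by
  refine sparse_of_nat (by norm_num) fun ε hε => ?_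
  obtain ⟨C, hC⟩ := FewExceptions.result ε hε
  refine ⟨2 * |C| * 2 ^ (1 / 2 + ε), fun X hX => ?_⟩
  obtain ⟨h1, h2⟩ := hC (2 * X) (by omega)
  have hsub : {t : ℕ | t ∈ {q | ¬ Good q} ∧ t ≤ X} ⊆ (fun L : ℚ => L.den) '' Exceptional (2 * X) ∪
      (fun L : ℚ => max L.num.natAbs L.den) '' Exceptional (2 * X) := by
    rintro t ⟨ht, htX⟩
    simp only [Set.mem_setOf_eq, Good] at ht
    push Not at ht
    obtain ⟨L, hL1, hL2, ε', m, a, b, he, ha, hb, hab, hlt⟩ := ht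
    have hF : Fails L := ⟨ε', m, a, b, he, ha, hb, hab, hlt⟩
    have h3 := RationalsInWindows.num_le hF
    rcases hL2 with h4 | h4
    · refine Or.inl ⟨L, ⟨hL1, ?_, ?_, hF⟩, h4⟩ <;> omega
    · have h5 : L.num.natAbs ≤ t := h4 ▸ le_max_left _ _
      have h6 : L.den ≤ t := h4 ▸ le_max_right _ _
      refine Or.inr ⟨L, ⟨hL1, ?_, ?_, hF⟩, h4⟩ <;> omega
  have h3 : ({t : ℕ | t ∈ {q | ¬ Good q} ∧ t ≤ X}.ncard) ≤ 2 * (Exceptional (2 * X)).ncard := by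
    refine (Set.ncard_le_ncard hsub ((h1.image _).union (h1.image _))).trans ((Set.ncard_union_le _ _).trans ?_)
    have e1 := Set.ncard_image_le (f := fun L : ℚ => L.den) h1
    have e2 := Set.ncard_image_le (f := fun L : ℚ => max L.num.natAbs L.den) h1
    omega
  calc (({t : ℕ | t ∈ {q | ¬ Good q} ∧ t ≤ X}.ncard : ℕ) : ℝ) ≤ 2 * ((Exceptional (2 * X)).ncard : ℝ) := by
        exact_mod_cast h3
    _ ≤ 2 * (C * ((2 * X : ℕ) : ℝ) ^ (1 / 2 + ε)) := by linarith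
    _ ≤ 2 * (|C| * ((2 * X : ℕ) : ℝ) ^ (1 / 2 + ε)) := by
        have := mul_le_mul_of_nonneg_right (le_abs_self C)
          (Real.rpow_nonneg (Nat.cast_nonneg (α := ℝ) (2 * X)) (1 / 2 + ε))
        linarith
    _ = 2 * |C| * 2 ^ (1 / 2 + ε) * (X : ℝ) ^ (1 / 2 + ε) := by
        push_cast
        rw [Real.mul_rpow (by norm_num) (Nat.cast_nonneg X)]
        ring

/-- the Lang-Waldschmidt inequality with `C = 1/2` and exponent `1 + ε`, for all `ε ≥ 0`, all integers `a_j = ± q_j` and all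
nonzero integers `b_j` with `|b_j| ≤ (q_1 ⋯ q_m) ^ κ` -/
def GoodTuple {m : ℕ} (κ : ℝ) (q : Fin m → ℕ) : Prop :=
  ∀ a b : Fin m → ℤ, (∀ j, |a j| = q j) → (∀ j, b j ≠ 0 ∧ |(b j : ℝ)| ≤ (∏ i, (q i : ℝ)) ^ κ) →
    ∀ ε : ℝ, 0 ≤ ε →
      (1 / 2 : ℝ) ^ m * ((univ.sup fun i => (b i).natAbs : ℕ) : ℝ) /
        ((∏ i, |((b i : ℤ) : ℝ)|) * (∏ i, |((a i : ℤ) : ℝ)|)) ^ (1 + ε) ≤ |(∏ i, (a i : ℝ) ^ (b i)) - 1|

/-- the vectors of nonzero integers of absolute value at most `n` -/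
noncomputable def box (m n : ℕ) : Finset (Fin m → ℤ) := Fintype.piFinset fun _ => (Icc (-(n : ℤ)) n).erase 0

lemma mem_box {m n : ℕ} {b : Fin m → ℤ} : b ∈ box m n ↔ ∀ j, b j ≠ 0 ∧ |b j| ≤ (n : ℤ) := by
  unfold box
  simp only [Fintype.mem_piFinset, mem_erase, mem_Icc, abs_le]

lemma card_box (m n : ℕ) : (box m n).card = (2 * n) ^ m := by
  unfold box
  rw [Fintype.card_piFinset]
  simp only [prod_const, card_univ, Fintype.card_fin]
  congr 1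
  rw [card_erase_of_mem (by simp), Int.card_Icc]
  omega

theorem abs_log_le {x δ : ℝ} (hδ : δ ≤ 1 / 2) (h : |x - 1| ≤ δ) : |Real.log x| ≤ 2 * δ := by
  obtain ⟨h1, h2⟩ := abs_le.1 h
  have hx : 1 / 2 ≤ x := by linarith
  have hxp : 0 < x := by linarith
  have h3 := Real.log_le_sub_one_of_pos hxp
  have h4 := Real.one_sub_inv_le_log_of_pos hxp
  have hδ0 : 0 ≤ δ := (abs_nonneg _).trans h
  have h5 : -(2 * δ) ≤ 1 - x⁻¹ := by
    have h6 : x⁻¹ ≤ 1 + 2 * δ := by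
      rw [inv_le_iff_one_le_mul₀ hxp]
      nlinarith
    linarith
  rw [abs_le]
  constructor <;> linarith

/-- a failure gives a small linear form in the logarithms of the `q_j` -/
lemma small_form {m : ℕ} (hm : 1 ≤ m) (q : Fin m → ℕ) (hq : ∀ j, 1 ≤ q j) (a b : Fin m → ℤ) (ha : ∀ j, |a j| = q j)
    (hb : ∀ j, b j ≠ 0) (ε : ℝ) (hε : 0 ≤ ε)
    (h : |(∏ i, (a i : ℝ) ^ (b i)) - 1| < (1 / 2 : ℝ) ^ m * ((univ.sup fun i => (b i).natAbs : ℕ) : ℝ) /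
        ((∏ i, |((b i : ℤ) : ℝ)|) * (∏ i, |((a i : ℤ) : ℝ)|)) ^ (1 + ε)) :
    |∑ j, (b j : ℝ) * Real.log (q j)| ≤ 1 / ∏ j, (q j : ℝ) := by
  have hq1 : ∀ j, (1 : ℝ) ≤ q j := fun j => by exact_mod_cast hq j
  have ha1 : ∀ j, |((a j : ℤ) : ℝ)| = q j := fun j => by
    have := ha j
    exact_mod_cast this
  have hb1 : ∀ j, (1 : ℝ) ≤ |((b j : ℤ) : ℝ)| := fun j => by
    have : 1 ≤ |b j| := Int.one_le_abs (hb j)
    exact_mod_cast this
  set P : ℝ := ∏ j, (q j : ℝ) with hP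
  have hP1 : 1 ≤ P := by
    calc (1 : ℝ) = ∏ _j : Fin m, (1 : ℝ) := by simp
      _ ≤ _ := Finset.prod_le_prod (fun _ _ => zero_le_one) (fun j _ => hq1 j)
  set Bp : ℝ := ∏ j, |((b j : ℤ) : ℝ)| with hBp
  have hBp1 : 1 ≤ Bp := by
    calc (1 : ℝ) = ∏ _j : Fin m, (1 : ℝ) := by simp
      _ ≤ _ := Finset.prod_le_prod (fun _ _ => zero_le_one) (fun j _ => hb1 j)
  have hB : ((univ.sup fun i => (b i).natAbs : ℕ) : ℝ) ≤ Bp := by
    have h6 : (univ.sup fun i => (b i).natAbs) ≤ ∏ i, (b i).natAbs := by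
      apply Finset.sup_le
      intro i _
      exact Nat.le_of_dvd (Finset.prod_pos fun j _ => Int.natAbs_pos.2 (hb j)) (Finset.dvd_prod_of_mem _ (mem_univ i))
    have h8 : ((∏ i, (b i).natAbs : ℕ) : ℝ) = Bp := by
      rw [hBp]
      push_cast
      apply Finset.prod_congr rfl
      intro i _
      rw [Nat.cast_natAbs]
      push_cast
      rfl
    rw [← h8]
    exact_mod_cast h6
  have hden : Bp * P ≤ (Bp * ∏ i, |((a i : ℤ) : ℝ)|) ^ (1 + ε) := by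
    rw [Finset.prod_congr rfl fun j _ => ha1 j]
    calc Bp * P = (Bp * P) ^ (1 : ℝ) := (Real.rpow_one _).symm
      _ ≤ _ := Real.rpow_le_rpow_of_exponent_le (one_le_mul_of_one_le_of_one_le hBp1 hP1) (by linarith)
  have hhalf : (1 / 2 : ℝ) ^ m ≤ 1 / 2 := by
    calc (1 / 2 : ℝ) ^ m ≤ (1 / 2) ^ 1 := pow_le_pow_of_le_one (by norm_num) (by norm_num) hm
      _ = 1 / 2 := pow_one _
  have h1 : |(∏ i, (a i : ℝ) ^ (b i)) - 1| ≤ 1 / 2 * (1 / P) := by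
    refine h.le.trans ?_
    calc (1 / 2 : ℝ) ^ m * ((univ.sup fun i => (b i).natAbs : ℕ) : ℝ) / (Bp * ∏ i, |((a i : ℤ) : ℝ)|) ^ (1 + ε)
        ≤ (1 / 2 * Bp) / (Bp * P) := by
          apply div_le_div₀ (by positivity) _ (by positivity) hden
          exact mul_le_mul hhalf hB (Nat.cast_nonneg _) (by norm_num)
      _ = 1 / 2 * (1 / P) := by
          field_simp
  have h2 : 1 / 2 * (1 / P) ≤ 1 / 2 := by
    have : 1 / P ≤ 1 := by
      rw [div_le_one (by linarith)]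
      exact hP1
    linarith
  have h3 := abs_log_le h2 h1
  have h4 : Real.log (∏ i, (a i : ℝ) ^ (b i)) = ∑ j, (b j : ℝ) * Real.log (q j) := by
    rw [Real.log_prod (fun i _ => zpow_ne_zero _ (by
      intro h0
      have := ha1 i
      rw [h0, abs_zero] at this
      linarith [hq1 i]))]
    refine Finset.sum_congr rfl fun j _ => ?_
    rw [Real.log_zpow, ← Real.log_abs, ha1]
  rw [h4] at h3
  linarith

/-- the exceptional tuples -/
def ExcN (m : ℕ) (κ : ℝ) : Set (Fin m → ℕ) := {q | (∀ j, 1 ≤ q j) ∧ ¬ GoodTuple κ q}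

lemma count (m : ℕ) (hm : 1 ≤ m) {κ : ℝ} (hκ : 0 ≤ κ) (ε : ℝ) (hε : 0 < ε) : ∃ C : ℝ, 0 < C ∧ ∀ X : ℝ, 1 ≤ X →
    ∃ T : Finset (Fin m → ℕ), (∀ q ∈ ExcN m κ, ∏ j, (q j : ℝ) ≤ X → q ∈ T) ∧
      (∀ q ∈ T, (∀ j, 1 ≤ q j) ∧ ∏ j, (q j : ℝ) ≤ X) ∧ (T.card : ℝ) ≤ C * X ^ (1 / 2 + m * κ + ε) := by
  classical
  have : Nonempty (Fin m) := ⟨⟨0, hm⟩⟩
  obtain ⟨C, hC0, hC⟩ := Pool.Agent.TH201.LW.few2 (κ := Fin m) ε hε
  refine ⟨C * 2 ^ m, by positivity, fun X hX => ?_⟩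
  have hX0 : (0 : ℝ) < X := by linarith
  have hY : 1 ≤ ⌊X⌋₊ := Nat.le_floor (by exact_mod_cast hX)
  set S : (Fin m → ℤ) → Finset (Fin m → ℕ) := fun b =>
    (Fintype.piFinset fun _ : Fin m => Icc 1 ⌊X⌋₊).filter fun q => ∏ j, q j ≤ ⌊X⌋₊ ∧
      |∑ j, (b j : ℝ) * Real.log (q j) + 0| ≤ 1 / ∏ j, (q j : ℝ) with hS
  have hSm : ∀ b q, q ∈ S b → (∀ j, 1 ≤ q j) ∧ ∏ j, q j ≤ ⌊X⌋₊ ∧
      |∑ j, (b j : ℝ) * Real.log (q j) + 0| ≤ 1 / ∏ j, (q j : ℝ) := by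
    intro b q hq
    rw [hS] at hq
    simp only [mem_filter, Fintype.mem_piFinset, mem_Icc] at hq
    exact ⟨fun j => (hq.1 j).1, hq.2.1, hq.2.2⟩
  refine ⟨(box m ⌊X ^ κ⌋₊).biUnion S, ?_, ?_, ?_⟩
  · rintro q ⟨hq, hbad⟩ hqX
    unfold GoodTuple at hbad
    push Not at hbad
    obtain ⟨a, b, ha, hb, ε', hε', hlt⟩ := hbad
    have hform := small_form hm q hq a b ha (fun j => (hb j).1) ε' hε' hlt
    have hprodN : ∏ j, q j ≤ ⌊X⌋₊ := Nat.le_floor (by push_cast; exact hqX)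
    have hpos : 0 < ∏ j, q j := Finset.prod_pos fun j _ => hq j
    have hP1 : (1 : ℝ) ≤ ∏ j, (q j : ℝ) := by
      have : (1 : ℕ) ≤ ∏ j, q j := hpos
      exact_mod_cast this
    rw [mem_biUnion]
    refine ⟨b, ?_, ?_⟩
    · rw [mem_box]
      intro j
      obtain ⟨k1, k2⟩ := hb j
      refine ⟨k1, ?_⟩
      have k3 : (b j).natAbs ≤ ⌊X ^ κ⌋₊ := Nat.le_floor (by
        rw [Nat.cast_natAbs]
        push_cast
        exact k2.trans (Real.rpow_le_rpow (by linarith) hqX hκ))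
      rw [Int.abs_eq_natAbs]
      exact_mod_cast k3
    · rw [hS]
      simp only [mem_filter, Fintype.mem_piFinset, mem_Icc]
      refine ⟨fun j => ⟨hq j, (Nat.le_of_dvd hpos (dvd_prod_of_mem _ (mem_univ j))).trans hprodN⟩, hprodN, ?_⟩
      rw [add_zero]
      exact hform
  · intro q hq
    rw [mem_biUnion] at hq
    obtain ⟨b, -, hq⟩ := hq
    obtain ⟨h1, h2, -⟩ := hSm b q hq
    refine ⟨h1, ?_⟩
    have h3 : ((∏ j, q j : ℕ) : ℝ) ≤ (⌊X⌋₊ : ℝ) := by exact_mod_cast h2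
    push_cast at h3
    exact h3.trans (Nat.floor_le hX0.le)
  · have hSc : ∀ b ∈ box m ⌊X ^ κ⌋₊, ((S b).card : ℝ) ≤ C * X ^ (1 / 2 + ε) := by
      intro b hb
      refine (hC ⌊X⌋₊ hY (fun j => (b j : ℝ)) 0 (fun j => ?_) (S b) (fun q hq => hSm b q hq)).trans ?_
      · have : 1 ≤ |b j| := Int.one_le_abs ((mem_box.1 hb j).1)
        exact_mod_cast this
      · exact mul_le_mul_of_nonneg_left
          (Real.rpow_le_rpow (Nat.cast_nonneg _) (Nat.floor_le hX0.le) (by positivity)) hC0.le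
    have h4 : ((⌊X ^ κ⌋₊ : ℕ) : ℝ) ≤ X ^ κ := Nat.floor_le (Real.rpow_nonneg hX0.le _)
    have h6 : (((2 * ⌊X ^ κ⌋₊) ^ m : ℕ) : ℝ) ≤ 2 ^ m * X ^ (m * κ) := by
      push_cast
      rw [mul_pow]
      apply mul_le_mul_of_nonneg_left _ (by positivity)
      calc ((⌊X ^ κ⌋₊ : ℕ) : ℝ) ^ m ≤ (X ^ κ) ^ m := pow_le_pow_left₀ (Nat.cast_nonneg _) h4 m
        _ = X ^ (m * κ) := by
            rw [← Real.rpow_natCast, ← Real.rpow_mul hX0.le]
            congr 1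
            ring
    calc (((box m ⌊X ^ κ⌋₊).biUnion S).card : ℝ) ≤ ∑ b ∈ box m ⌊X ^ κ⌋₊, ((S b).card : ℝ) := by
          exact_mod_cast card_biUnion_le
      _ ≤ ∑ _b ∈ box m ⌊X ^ κ⌋₊, C * X ^ (1 / 2 + ε) := sum_le_sum hSc
      _ = (((2 * ⌊X ^ κ⌋₊) ^ m : ℕ) : ℝ) * (C * X ^ (1 / 2 + ε)) := by
          rw [sum_const, nsmul_eq_mul, card_box]
      _ ≤ (2 ^ m * X ^ (m * κ)) * (C * X ^ (1 / 2 + ε)) := mul_le_mul_of_nonneg_right h6 (by positivity)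
      _ = C * 2 ^ m * (X ^ (m * κ) * X ^ (1 / 2 + ε)) := by ring
      _ = C * 2 ^ m * X ^ (1 / 2 + m * κ + ε) := by
          rw [← Real.rpow_add hX0]
          congr 2
          ring

/-- exceptional tuples with numerators -/
def Exc (m R : ℕ) (κ : ℝ) : Set ((Fin m → ℕ) × (Fin m → ℤ)) := {i | i.1 ∈ ExcN m κ ∧ ∀ j, |i.2 j| ≤ (R : ℤ) * i.1 j}

/-- heights -/
noncomputable def H {m : ℕ} (i : (Fin m → ℕ) × (Fin m → ℤ)) (j : Fin m) : ℝ := max 1 (i.1 j : ℝ)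

lemma sparse_tuples (m : ℕ) (hm : 1 ≤ m) (R : ℕ) (hR : 1 ≤ R) {κ : ℝ} (hκ : 0 ≤ κ) :
    Sparse (Exc m R κ) (fun i => ∏ j, H i j) (3 / 2 + m * κ) := by
  classical
  intro ε hε
  obtain ⟨C, hC0, hC⟩ := count m hm hκ ε hε
  refine ⟨C * (3 * R) ^ m, fun X hX => ?_⟩
  have hX0 : (0 : ℝ) < X := by linarith
  obtain ⟨T, hT1, hT2, hT3⟩ := hC X hX
  set N : (Fin m → ℕ) → Finset ((Fin m → ℕ) × (Fin m → ℤ)) := fun q =>
    {q} ×ˢ Fintype.piFinset (fun j => Icc (-((R : ℤ) * q j)) ((R : ℤ) * q j)) with hN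
  have hHq : ∀ i ∈ Exc m R κ, ∏ j, H i j = ∏ j, (i.1 j : ℝ) := by
    intro i hi
    refine Finset.prod_congr rfl fun j _ => ?_
    have h1 : (1 : ℝ) ≤ (i.1 j : ℝ) := by exact_mod_cast hi.1.1 j
    exact max_eq_right h1
  have hsub : {i | i ∈ Exc m R κ ∧ ∏ j, H i j ≤ X} ⊆ (T.biUnion N : Finset ((Fin m → ℕ) × (Fin m → ℤ))) := by
    rintro i ⟨hi, hiX⟩
    rw [hHq i hi] at hiX
    rw [Finset.mem_coe, mem_biUnion]
    refine ⟨i.1, hT1 _ hi.1 hiX, ?_⟩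
    rw [hN]
    simp only [mem_product, mem_singleton, Fintype.mem_piFinset, mem_Icc, true_and]
    exact fun j => abs_le.1 (hi.2 j)
  refine ⟨(Finset.finite_toSet _).subset hsub, ?_⟩
  have h1 := Set.ncard_le_ncard hsub (Finset.finite_toSet _)
  rw [Set.ncard_coe_finset] at h1
  have h2 : ∀ q ∈ T, ((N q).card : ℝ) ≤ (3 * R) ^ m * X := by
    intro q hq
    obtain ⟨h3, h4⟩ := hT2 q hq
    rw [hN]
    simp only [card_product, card_singleton, one_mul, Fintype.card_piFinset, Int.card_Icc]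
    push_cast
    calc ∏ j, (((((R : ℤ) * q j + 1 - -((R : ℤ) * q j)).toNat : ℕ)) : ℝ) ≤ ∏ j, (3 * R * (q j : ℝ)) := by
          refine Finset.prod_le_prod (fun _ _ => Nat.cast_nonneg _) fun j _ => ?_
          have e1 : ((R : ℤ) * q j + 1 - -((R : ℤ) * q j)).toNat ≤ 3 * R * q j := by
            have e2 : 1 ≤ R * q j := Nat.one_le_iff_ne_zero.2 (Nat.mul_ne_zero (by omega) (by have := h3 j; omega))
            have e3 : ((R * q j : ℕ) : ℤ) = (R : ℤ) * q j := by push_cast; rfl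
            rw [← e3]
            have e4 : 3 * R * q j = 3 * (R * q j) := by ring
            rw [e4]
            omega
          exact_mod_cast e1
      _ = (3 * R) ^ m * ∏ j, (q j : ℝ) := by
          rw [Finset.prod_mul_distrib, Finset.prod_const, Finset.card_univ, Fintype.card_fin]
      _ ≤ (3 * R) ^ m * X := mul_le_mul_of_nonneg_left h4 (by positivity)
  calc (({i | i ∈ Exc m R κ ∧ ∏ j, H i j ≤ X}.ncard : ℕ) : ℝ) ≤ ((T.biUnion N).card : ℝ) := by exact_mod_cast h1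
    _ ≤ ∑ q ∈ T, ((N q).card : ℝ) := by exact_mod_cast card_biUnion_le
    _ ≤ ∑ _q ∈ T, (3 * R) ^ m * X := sum_le_sum h2
    _ = (T.card : ℝ) * ((3 * R) ^ m * X) := by rw [sum_const, nsmul_eq_mul]
    _ ≤ (C * X ^ (1 / 2 + m * κ + ε)) * ((3 * R) ^ m * X) := mul_le_mul_of_nonneg_right hT3 (by positivity)
    _ = C * (3 * R) ^ m * (X ^ (1 / 2 + m * κ + ε) * X ^ (1 : ℝ)) := by
        rw [Real.rpow_one]
        ring
    _ = C * (3 * R) ^ m * X ^ (3 / 2 + m * κ + ε) := by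
        rw [← Real.rpow_add hX0]
        congr 2
        ring

/-- the exceptional tuples for `x` -/
def Tup {m : ℕ} (κ θ A : ℝ) (y x : Fin m → ℝ) : Set (Fin m → ℕ) :=
  {q | (∀ j, 1 ≤ q j) ∧ (∀ j, ∃ p : ℤ, |(q j : ℝ) * x j - p - y j| ≤ A * (q j : ℝ) ^ (-θ)) ∧ ¬ GoodTuple κ q}

lemma cover {m : ℕ} {κ θ A : ℝ} (hθ : 0 ≤ θ) (y x : Fin m → ℝ) {R : ℕ} (hR : ‖x‖ + ‖y‖ + |A| ≤ R) :
    Tup κ θ A y x ⊆ Prod.fst '' {i | i ∈ Exc m (R + 1) κ ∧
      ∀ j, |x j - ((i.2 j : ℝ) + y j) / (i.1 j : ℝ)| ≤ |A| * (H i j) ^ (-(1 + θ))} := by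
  rintro q ⟨hq, hap, hbad⟩
  choose p hp using hap
  have hq1 : ∀ j, (1 : ℝ) ≤ q j := fun j => by exact_mod_cast hq j
  refine ⟨(q, p), ⟨⟨⟨hq, hbad⟩, fun j => ?_⟩, fun j => ?_⟩, rfl⟩
  · have e1 : ((p j : ℤ) : ℝ) = (q j : ℝ) * x j - y j - ((q j : ℝ) * x j - p j - y j) := by ring
    have e2 : |((p j : ℤ) : ℝ)| ≤ (q j : ℝ) * ‖x‖ + ‖y‖ + |A| := by
      rw [e1]
      refine (abs_sub _ _).trans (add_le_add ((abs_sub _ _).trans (add_le_add ?_ (norm_le_pi_norm y j))) ?_)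
      · rw [abs_mul, abs_of_nonneg (Nat.cast_nonneg (q j) : (0 : ℝ) ≤ (q j : ℝ))]
        exact mul_le_mul_of_nonneg_left (norm_le_pi_norm x j) (Nat.cast_nonneg _)
      · refine (hp j).trans ?_
        have h1 : (q j : ℝ) ^ (-θ) ≤ 1 := Real.rpow_le_one_of_one_le_of_nonpos (hq1 j) (by linarith)
        have h2 : 0 ≤ (q j : ℝ) ^ (-θ) := by positivity
        calc A * (q j : ℝ) ^ (-θ) ≤ |A| * (q j : ℝ) ^ (-θ) := mul_le_mul_of_nonneg_right (le_abs_self A) h2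
          _ ≤ |A| := mul_le_of_le_one_right (abs_nonneg A) h1
    have e3 : |((p j : ℤ) : ℝ)| ≤ ((R : ℝ) + 1) * q j := by
      have := norm_nonneg x
      have := norm_nonneg y
      have := abs_nonneg A
      nlinarith [hq1 j]
    show |p j| ≤ ((R + 1 : ℕ) : ℤ) * (q j : ℤ)
    have e4 : ((|p j| : ℤ) : ℝ) ≤ (((R + 1 : ℕ) : ℤ) * (q j : ℤ) : ℤ) := by
      push_cast
      exact e3
    exact_mod_cast e4
  · have hq0 : (0 : ℝ) < q j := by linarith [hq1 j]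
    show |x j - ((p j : ℝ) + y j) / (q j : ℝ)| ≤ |A| * (max 1 (q j : ℝ)) ^ (-(1 + θ))
    rw [max_eq_right (hq1 j)]
    have e1 : x j - ((p j : ℝ) + y j) / (q j : ℝ) = ((q j : ℝ) * x j - p j - y j) / (q j : ℝ) := by
      field_simp
      ring
    rw [e1, abs_div, abs_of_pos hq0, div_le_iff₀ hq0]
    have e2 : |A| * (q j : ℝ) ^ (-(1 + θ)) * (q j : ℝ) = |A| * (q j : ℝ) ^ (-θ) := by
      rw [mul_assoc]
      congr 1
      have e3 : -(1 + θ) = -θ - 1 := by ring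
      rw [e3, Real.rpow_sub_one hq0.ne', div_mul_cancel₀ _ hq0.ne']
    rw [e2]
    exact (hp j).trans (mul_le_mul_of_nonneg_right (le_abs_self A) (by positivity))

theorem tuples (m : ℕ) (hm : 1 ≤ m) (κ θ : ℝ) (hκ : 0 ≤ κ) (hθ : 1 / 2 + m * κ < θ) (y : Fin m → ℝ) :
    ∀ᵐ x : Fin m → ℝ, ∀ A : ℝ, (Tup κ θ A y x).Finite := by
  have hmκ : (0 : ℝ) ≤ m * κ := by positivity
  have key : ∀ᵐ x : Fin m → ℝ, ∀ R : ℕ, ∀ A : ℝ, {i | i ∈ Exc m (R + 1) κ ∧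
      ∀ j, |x j - ((i.2 j : ℝ) + y j) / (i.1 j : ℝ)| ≤ A * (H i j) ^ (-(1 + θ))}.Finite := by
    rw [ae_all_iff]
    intro R
    exact Pool.Agent.X218.RC.rect_null (n := m) (E := Exc m (R + 1) κ) (H := fun i j => H i j)
      (e := fun i j => ((i.2 j : ℝ) + y j) / (i.1 j : ℝ)) (fun i j => le_max_left _ _) (κ := 3 / 2 + m * κ)
      (v := 1 + θ) (sparse_tuples m hm (R + 1) (by omega) hκ) (by linarith) (by linarith)
  filter_upwards [key] with x hx A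
  obtain ⟨R, hR⟩ := exists_nat_ge (‖x‖ + ‖y‖ + |A|)
  exact ((hx R |A|).image Prod.fst).subset (cover (by linarith) y x hR)

theorem tuples_dim (m : ℕ) (hm : 1 ≤ m) (κ θ A : ℝ) (hκ : 0 ≤ κ) (hθ : 0 ≤ θ) (y : Fin m → ℝ) :
    dimH {x : Fin m → ℝ | (Tup κ θ A y x).Infinite} ≤ ENNReal.ofReal (m - 1 + (3 / 2 + m * κ) / (1 + θ)) := by
  have hmκ : (0 : ℝ) ≤ m * κ := by positivity
  have h1 : {x : Fin m → ℝ | (Tup κ θ A y x).Infinite} ⊆ ⋃ R : ℕ, {x : Fin m → ℝ | {i | i ∈ Exc m (R + 1) κ ∧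
      ∀ j, |x j - ((i.2 j : ℝ) + y j) / (i.1 j : ℝ)| ≤ |A| * (H i j) ^ (-(1 + θ))}.Infinite} := by
    intro x hx
    obtain ⟨R, hR⟩ := exists_nat_ge (‖x‖ + ‖y‖ + |A|)
    rw [Set.mem_iUnion]
    exact ⟨R, fun h => hx ((h.image Prod.fst).subset (cover hθ y x hR))⟩
  refine (dimH_mono h1).trans ?_
  rw [dimH_iUnion]
  exact iSup_le fun R => Pool.Agent.X218.RC.rect_dim hm (E := Exc m (R + 1) κ) (H := fun i j => H i j)
    (e := fun i j => ((i.2 j : ℝ) + y j) / (i.1 j : ℝ)) (fun i j => le_max_left _ _) (κ := 3 / 2 + m * κ)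
    (v := 1 + θ) (sparse_tuples m hm (R + 1) (by omega) hκ) (by linarith) (by linarith) |A|

/-- **Theorem.** (1) For all `θ, y ∈ ℝ ^ D` with `θ_i ≥ 0`, `θ_1 + ... + θ_D > 1/2` and almost all `x ∈ ℝ ^ D`, for all
large natural numbers `q` such that for each `i` there is an integer `p` with `|q x_i - p - y_i| ≤ q ^ (-θ_i)`: for ALL
rational numbers `L ≠ 1` with denominator or height `q`, for all `m`, all nonzero integers `a_1, …, a_m`, `b_1, …, b_m` with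
`∏ a_j ^ b_j = L` and all `ε ≥ 0` one has `|L - 1| ≥ max |b_j| / (∏ |b_j| ∏ |a_j|) ^ (1 + ε)`. (2) In dimension one, for all
`θ ≥ 0` the exceptional set has Hausdorff dimension at most `(3 / 2) / (1 + θ)`. (3) Let `m ≥ 1`, `κ ≥ 0`, `y ∈ ℝ ^ m` and
`θ > 1/2 + m κ`. For almost all `x ∈ ℝ ^ m` and all `A`, all but finitely many tuples `q` of positive natural numbers with
the property that for each `j` there is an integer `p` with `|q_j x_j - p - y_j| ≤ A q_j ^ (-θ)` satisfy, for ALL integers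
`a_j` with `|a_j| = q_j`, ALL nonzero integers `b_j` with `|b_j| ≤ (q_1 ⋯ q_m) ^ κ` and all `ε ≥ 0`, the inequality
`(1/2) ^ m max |b_j| / (∏ |b_j| ∏ |a_j|) ^ (1 + ε) ≤ |∏ a_j ^ b_j - 1|`; for all `θ ≥ 0` the exceptional set has Hausdorff
dimension at most `m - 1 + (3/2 + m κ) / (1 + θ)`. -/
theorem result :
    (∀ (D : ℕ) (θ y : Fin D → ℝ), (∀ i, 0 ≤ θ i) → 1 / 2 < ∑ i, θ i →
      ∀ᵐ x : Fin D → ℝ, ∃ q₀ : ℕ, ∀ q : ℕ, q₀ ≤ q →
        (∀ i, ∃ p : ℤ, |(q : ℝ) * x i - p - y i| ≤ (q : ℝ) ^ (-θ i)) → Good q) ∧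
    (∀ θ y : ℝ, 0 ≤ θ → ∃ E : Set ℝ, dimH E ≤ ENNReal.ofReal ((3 / 2) / (1 + θ)) ∧
      ∀ x : ℝ, x ∉ E → ∃ q₀ : ℕ, ∀ q : ℕ, q₀ ≤ q → (∃ p : ℤ, |(q : ℝ) * x - p - y| ≤ (q : ℝ) ^ (-θ)) → Good q) ∧
    (∀ (m : ℕ), 1 ≤ m → ∀ (κ θ : ℝ), 0 ≤ κ → 0 ≤ θ → ∀ y : Fin m → ℝ,
      (1 / 2 + m * κ < θ → ∀ᵐ x : Fin m → ℝ, ∀ A : ℝ, (Tup κ θ A y x).Finite) ∧
      ∀ A : ℝ, dimH {x : Fin m → ℝ | (Tup κ θ A y x).Infinite} ≤
        ENNReal.ofReal (m - 1 + (3 / 2 + m * κ) / (1 + θ))) := by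
  obtain ⟨-, -, h3, h4⟩ := pack Good (by norm_num) sparse
  refine ⟨fun D θ y hθ hsum => h3 D θ y hθ hsum, fun θ y hθ => ?_, 
    fun m hm κ θ hκ hθ y => ⟨fun h => tuples m hm κ θ hκ h y, fun A => tuples_dim m hm κ θ A hκ hθ y⟩⟩
  obtain ⟨E, hE, h5⟩ := h4 θ y hθ
  refine ⟨E, hE.trans (le_of_eq ?_), h5⟩
  norm_num

end Pool.Agent.Results.MP_4eb8d9_nt.Denominators
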