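import Pool.Agent.Results.MP_4eb8d9_nt.FewExceptions
import Pool.Agent.Y854.GM.Win

/-!
# The Lang-Waldschmidt inequality for ALL products whose denominator or height is in windows around thin sequences

For every sequence `v ≥ 1` of exponent of convergence at most `τ` (for `v_i = (i + 1) ^ a` this is `1 / a`, for `v_i = b ^ i`
it is `0`) and every `ρ < 1`, outside a set of `α > 0` of Hausdorff dimension at most `(1/2 + τ) / (1 - ρ)` the following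
holds for all but finitely many `i`: for ALL rational numbers `Λ ≠ 1` whose denominator or height differs from `α v_i` by at
most `v_i ^ ρ`, ALL representations `Λ = a_1 ^ b_1 ⋯ a_m ^ b_m` (any `m`) with nonzero integers and all `ε ≥ 0` one has
`|Λ - 1| ≥ B / (|b_1 ⋯ b_m| |a_1 ⋯ a_m|) ^ (1 + ε)`: the inequality of Q1 with `C(ε) = 1`, also for `ε = 0`.
The number of exceptions is from the starting result `FewExceptions`.
-/

set_option autoImplicit false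

open Finset

namespace Pool.Agent.Results.MP_4eb8d9_nt.RationalsInWindows

open FewExceptions (Fails Exceptional)

/-- the exponent of convergence of the sequence `v` is at most `τ` -/
def ExpLe (v : ℕ → ℝ) (τ : ℝ) : Prop := ∀ t : ℝ, τ < t → Summable (fun n : ℕ => (v n) ^ (-t))

/-- an exceptional number is less than two -/
lemma lt_two {L : ℚ} (h : Fails L) : |(L : ℝ) - 1| < 1 := by
  obtain ⟨η, m, a, b, hη, ha, hb, -, hlt⟩ := h
  refine hlt.trans_le ?_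
  have h1 : ∀ i, (1 : ℝ) ≤ |((b i : ℤ) : ℝ)| := fun i => by
    have : 1 ≤ |b i| := Int.one_le_abs (hb i)
    exact_mod_cast this
  have h2 : ∀ i, (1 : ℝ) ≤ |((a i : ℤ) : ℝ)| := fun i => by
    have : 1 ≤ |a i| := Int.one_le_abs (ha i)
    exact_mod_cast this
  have h3 : (1 : ℝ) ≤ ∏ i, |((b i : ℤ) : ℝ)| := by
    calc (1 : ℝ) = ∏ _i : Fin m, (1 : ℝ) := by simp
      _ ≤ _ := Finset.prod_le_prod (fun _ _ => zero_le_one) (fun i _ => h1 i)
  have h4 : (1 : ℝ) ≤ ∏ i, |((a i : ℤ) : ℝ)| := by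
    calc (1 : ℝ) = ∏ _i : Fin m, (1 : ℝ) := by simp
      _ ≤ _ := Finset.prod_le_prod (fun _ _ => zero_le_one) (fun i _ => h2 i)
  have h5 : ((univ.sup fun i => (b i).natAbs : ℕ) : ℝ) ≤ ∏ i, |((b i : ℤ) : ℝ)| := by
    have h6 : (univ.sup fun i => (b i).natAbs) ≤ ∏ i, (b i).natAbs := by
      apply Finset.sup_le
      intro i _
      have h7 : ∏ j, (b j).natAbs = (b i).natAbs * ∏ j ∈ univ.erase i, (b j).natAbs :=
        (Finset.mul_prod_erase univ _ (mem_univ i)).symm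
      rw [h7]
      apply Nat.le_mul_of_pos_right
      exact Finset.prod_pos fun j _ => Int.natAbs_pos.2 (hb j)
    have h8 : ((∏ i, (b i).natAbs : ℕ) : ℝ) = ∏ i, |((b i : ℤ) : ℝ)| := by
      push_cast
      apply Finset.prod_congr rfl
      intro i _
      rw [Nat.cast_natAbs]
      push_cast
      rfl
    rw [← h8]
    exact_mod_cast h6
  have h9 : (1 : ℝ) ≤ (∏ i, |((b i : ℤ) : ℝ)|) * (∏ i, |((a i : ℤ) : ℝ)|) := one_le_mul_of_one_le_of_one_le h3 h4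
  rw [div_le_one (by positivity)]
  calc ((univ.sup fun i => (b i).natAbs : ℕ) : ℝ) ≤ ∏ i, |((b i : ℤ) : ℝ)| := h5
    _ ≤ (∏ i, |((b i : ℤ) : ℝ)|) * (∏ i, |((a i : ℤ) : ℝ)|) := le_mul_of_one_le_right (by linarith) h4
    _ = ((∏ i, |((b i : ℤ) : ℝ)|) * (∏ i, |((a i : ℤ) : ℝ)|)) ^ (1 : ℝ) := (Real.rpow_one _).symm
    _ ≤ _ := Real.rpow_le_rpow_of_exponent_le h9 (by linarith)

lemma num_le {L : ℚ} (h : Fails L) : L.num.natAbs ≤ 2 * L.den := by
  have h1 := abs_lt.1 (lt_two h)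
  have h2 : (0 : ℝ) < L := by linarith [h1.1]
  have h3 : (L : ℝ) < 2 := by linarith [h1.2]
  have h4 : (0 : ℚ) < L := by exact_mod_cast h2
  have h5 : L < 2 := by exact_mod_cast h3
  have h6 : 0 < L.num := Rat.num_pos.2 h4
  have h7 : (L.num : ℚ) < 2 * L.den := by
    have h8 : (L.num : ℚ) / L.den = L := Rat.num_div_den L
    have h9 : (0 : ℚ) < L.den := by exact_mod_cast L.den_pos
    rw [← h8, div_lt_iff₀ h9] at h5
    exact h5
  have h10 : L.num < 2 * L.den := by exact_mod_cast h7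
  omega

/-- **Theorem.** For every sequence `v ≥ 1` of exponent of convergence at most `τ ≥ 0` and every `ρ < 1` there is a set
`E ⊂ ℝ` of Hausdorff dimension at most `(1/2 + τ) / (1 - ρ)` such that for each `α > 0` outside `E`, for all but finitely
many `i`: for ALL rational numbers `L ≠ 1` whose denominator or height `max (|num L|, den L)` differs from `α v_i` by at most
`v_i ^ ρ`, for all `m`, all nonzero integers `a_1, …, a_m`, `b_1, …, b_m` with `∏ a_j ^ b_j = L` and all `ε ≥ 0` one has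
`|L - 1| ≥ max |b_j| / (∏ |b_j| ∏ |a_j|) ^ (1 + ε)`. The sequences `v_i = (i + 1) ^ a` and `v_i = b ^ i` have exponent of
convergence at most `1 / a` and `0`. -/
theorem result :
    (∀ (v : ℕ → ℝ) (τ ρ : ℝ), (∀ i, 1 ≤ v i) → 0 ≤ τ → ExpLe v τ → ρ < 1 →
      ∃ E : Set ℝ, dimH E ≤ ENNReal.ofReal ((1 / 2 + τ) / (1 - ρ)) ∧
        ∀ α : ℝ, 0 < α → α ∉ E → ∃ i₀ : ℕ, ∀ i : ℕ, i₀ ≤ i → ∀ L : ℚ, L ≠ 1 →
          (|(L.den : ℝ) - α * v i| ≤ (v i) ^ ρ ∨ |((max L.num.natAbs L.den : ℕ) : ℝ) - α * v i| ≤ (v i) ^ ρ) →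
            ∀ (ε : ℝ) (m : ℕ) (a b : Fin m → ℤ), 0 ≤ ε → (∀ j, a j ≠ 0) → (∀ j, b j ≠ 0) →
              ∏ j, ((a j : ℚ) ^ (b j)) = L →
              ((univ.sup fun j => (b j).natAbs : ℕ) : ℝ) /
                ((∏ j, |((b j : ℤ) : ℝ)|) * (∏ j, |((a j : ℤ) : ℝ)|)) ^ (1 + ε) ≤ |(L : ℝ) - 1|) ∧
    (∀ a : ℝ, 0 < a → ExpLe (fun n : ℕ => ((n : ℝ) + 1) ^ a) (1 / a)) ∧
    (∀ b : ℝ, 1 < b → ExpLe (fun n : ℕ => b ^ n) 0) := by
  refine ⟨fun v τ ρ hv hτ hE hρ => ?_, fun κ hκ => Pool.Agent.Y854.GM.expLe_pow κ hκ,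
    fun b hb => Pool.Agent.Y854.GM.expLe_geom b hb⟩
  have key : ∀ h : ℚ → ℝ, (∀ L : ℚ, Fails L → ∀ X : ℝ, h L ≤ X → ((max L.num.natAbs L.den : ℕ) : ℝ) ≤ 2 * X) →
      ∃ E : Set ℝ, dimH E ≤ ENNReal.ofReal ((1 / 2 + τ) / (1 - ρ)) ∧
        ∀ α : ℝ, 0 < α → α ∉ E → ∃ i₀ : ℕ, ∀ i : ℕ, i₀ ≤ i → ∀ L ∈ {L : ℚ | L ≠ 1 ∧ Fails L},
          (v i) ^ ρ < |h L - α * v i| := by
    intro h hh
    refine Pool.Agent.Y854.GM.windows {L : ℚ | L ≠ 1 ∧ Fails L} h (s := 1 / 2) hv hτ hE (by norm_num) hρ ?_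
    intro ε hε
    obtain ⟨C, hC⟩ := FewExceptions.result ε hε
    refine ⟨|C| * 3 ^ (1 / 2 + ε), fun X hX => ?_⟩
    have hX1 : (1 : ℝ) ≤ 3 * X := by linarith
    have hY : 1 ≤ ⌊3 * X⌋₊ := Nat.le_floor (by exact_mod_cast hX1)
    obtain ⟨h1, h2⟩ := hC _ hY
    have hsub : {t : ℚ | t ∈ {L : ℚ | L ≠ 1 ∧ Fails L} ∧ h t ≤ X} ⊆ Exceptional ⌊3 * X⌋₊ := by
      rintro L ⟨⟨k1, k2⟩, k3⟩
      have k4 := hh L k2 X k3
      have k5 : max L.num.natAbs L.den ≤ ⌊3 * X⌋₊ := Nat.le_floor (by linarith)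
      exact ⟨k1, (le_max_left _ _).trans k5, (le_max_right _ _).trans k5, k2⟩
    refine ⟨h1.subset hsub, ?_⟩
    have h3 : ((⌊3 * X⌋₊ : ℕ) : ℝ) ≤ 3 * X := Nat.floor_le (by linarith)
    calc (({t : ℚ | t ∈ {L : ℚ | L ≠ 1 ∧ Fails L} ∧ h t ≤ X}.ncard : ℕ) : ℝ)
        ≤ ((Exceptional ⌊3 * X⌋₊).ncard : ℝ) := by exact_mod_cast Set.ncard_le_ncard hsub h1
      _ ≤ C * ((⌊3 * X⌋₊ : ℕ) : ℝ) ^ (1 / 2 + ε) := h2
      _ ≤ |C| * (3 * X) ^ (1 / 2 + ε) :=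
          mul_le_mul (le_abs_self C) (Real.rpow_le_rpow (Nat.cast_nonneg _) h3 (by positivity))
            (Real.rpow_nonneg (Nat.cast_nonneg _) _) (abs_nonneg C)
      _ = |C| * 3 ^ (1 / 2 + ε) * X ^ (1 / 2 + ε) := by
          rw [Real.mul_rpow (by norm_num) (by linarith)]
          ring
  obtain ⟨E₁, h11, h12⟩ := key (fun L => (L.den : ℝ)) (fun L hL X hX => by
    have h1 := num_le hL
    have h2 : max L.num.natAbs L.den ≤ 2 * L.den := max_le h1 (by omega)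
    have h3 : ((max L.num.natAbs L.den : ℕ) : ℝ) ≤ 2 * L.den := by exact_mod_cast h2
    linarith)
  obtain ⟨E₂, h21, h22⟩ := key (fun L => ((max L.num.natAbs L.den : ℕ) : ℝ)) (fun L hL X hX => by
    have h1 : (0 : ℝ) ≤ ((max L.num.natAbs L.den : ℕ) : ℝ) := Nat.cast_nonneg _
    linarith)
  refine ⟨E₁ ∪ E₂, ?_, fun α hα hαE => ?_⟩
  · rw [dimH_union]
    exact max_le h11 h21
  · obtain ⟨i₁, hi₁⟩ := h12 α hα (fun h => hαE (Or.inl h))
    obtain ⟨i₂, hi₂⟩ := h22 α hα (fun h => hαE (Or.inr h))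
    refine ⟨max i₁ i₂, fun i hi L hL hwin ε m a b hε ha hb hab => ?_⟩
    by_contra hcon
    push Not at hcon
    have hF : Fails L := ⟨ε, m, a, b, hε, ha, hb, hab, hcon⟩
    rcases hwin with hw | hw
    · exact absurd hw (not_le.2 (hi₁ i ((le_max_left _ _).trans hi) L ⟨hL, hF⟩))
    · exact absurd hw (not_le.2 (hi₂ i ((le_max_right _ _).trans hi) L ⟨hL, hF⟩))

end Pool.Agent.Results.MP_4eb8d9_nt.RationalsInWindows
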