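import Pool.Agent.Results.MP_4eb8d9_nt.AlmostAllTuples
import Pool.Agent.X67.LF.Fam

/-!
# Polynomial lower bounds for `|a_1 ^ b_1 ⋯ a_m ^ b_m - 1|` for ALL `a` at which generic linear forms are small

Let `m ≥ 1`, `κ ≥ 0`, `β > m / (m + 1)`. There is `B` such that for every `c < 2`, all `θ, y ∈ ℝ ^ k` with `θ_i ≥ 0`,
`θ_1 + ... + θ_k > m - 1 + β` and almost all systems of `k` linear forms `A_i` in `m` variables the following holds for ALL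
but finitely many `w ∈ ℤ ^ m` with nonzero entries such that `|w_j| ≤ c |w_l|` for all `j`, `l` and `A_i w` is within
`|w| ^ (-θ_i)` of `y_i` modulo `1` for all `i`: for ALL integers `b_j`, not all zero, with `|b_j| ≤ |w| ^ κ` one has
`||w_1| ^ b_1 ⋯ |w_m| ^ b_m - 1| > |w| ^ (-B)`.

For `y = 0` and `θ_1 + ... + θ_k = m` (Dirichlet's exponent) every system has infinitely many such `w`, without the condition
on the quotients. The number of exceptions is from the starting result `AlmostAllTuples`; Borel-Cantelli argument for linear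
forms in `Pool.Agent.X67.LF`.
-/

set_option autoImplicit false

open Finset

namespace Pool.Agent.Results.MP_4eb8d9_nt.SmallLinearForms

open AlmostAllTuples (Exceptional)
open Pool.Agent.X67.LF (size GoodAtSmallValues)

/-- the lower bound at `w`: if the nonzero entries satisfy `|w_j| ≤ c |w_l|`, then `|∏ |w_j| ^ (b_j) - 1| > |w| ^ (-B)` for
all integral `b ≠ 0` with `|b_j| ≤ |w| ^ κ` -/
def LowerBoundAt (m : ℕ) (κ B c : ℝ) (w : Fin m → ℤ) : Prop :=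
  (∀ j, w j ≠ 0) → (∀ j l, |(w j : ℝ)| ≤ c * |(w l : ℝ)|) →
    ∀ b : Fin m → ℤ, b ≠ 0 → (∀ j, |(b j : ℝ)| ≤ (size w : ℝ) ^ κ) →
      (size w : ℝ) ^ (-B) < |∏ j, |(w j : ℝ)| ^ (b j) - 1|

/-- **Theorem.** Let `m ≥ 1`, `κ ≥ 0` and `β > m / (m + 1)`. There is `B` such that for every `c < 2` the lower bound
`|∏ |w_j| ^ (b_j) - 1| > |w| ^ (-B)`, for all integral `b ≠ 0` with `|b_j| ≤ |w| ^ κ`, holds at the small values of generic
linear forms, exponent `m - 1 + β`, for the `w` with nonzero entries and `|w_j| ≤ c |w_l|`. -/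
theorem result (m : ℕ) (hm : 1 ≤ m) (κ β : ℝ) (hκ : 0 ≤ κ) (hβ : (m : ℝ) / ((m : ℝ) + 1) < β) :
    ∃ B : ℝ, ∀ c : ℝ, c < 2 → GoodAtSmallValues (LowerBoundAt m κ B c) ((m : ℝ) - 1 + β) := by
  classical
  obtain ⟨D, C, h⟩ := AlmostAllTuples.result m hm (κ + 1) β (by linarith) hβ
  have hm1 : (1 : ℝ) ≤ m := by exact_mod_cast hm
  have hβ0 : 0 < β := lt_of_le_of_lt (by positivity) hβ
  have hs0 : 0 ≤ (m : ℝ) - 1 + β := by linarith
  set D0 : ℝ := max D 0 with hD0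
  have hD00 : 0 ≤ D0 := le_max_right _ _
  refine ⟨D0, fun c hc => Pool.Agent.X67.LF.good_of_sparse _ hs0 ?_⟩
  rcases lt_or_ge c 1 with hc1 | hc1
  · -- no `w` with nonzero entries satisfies the condition
    have hempty : {w : Fin m → ℤ | ¬ LowerBoundAt m κ D0 c w} = ∅ := by
      refine Set.eq_empty_iff_forall_notMem.2 fun w hw => hw fun h1 h2 => ?_
      exfalso
      have h3 := h2 ⟨0, hm⟩ ⟨0, hm⟩
      have h4 : 0 < |(w ⟨0, hm⟩ : ℝ)| := abs_pos.2 (by exact_mod_cast h1 ⟨0, hm⟩)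
      nlinarith
    rw [hempty]
    refine fun ε hε => ⟨0, fun X hX => ?_⟩
    simp
  have hc0 : 0 < c := by linarith
  set q : ℝ := 2 / c with hq
  have hq1 : 1 < q := by rw [hq, lt_div_iff₀ hc0]; linarith
  have hlq : 0 < Real.log q := Real.log_pos hq1
  have hN1 : ∀ k : ℕ, 1 ≤ ⌈q ^ k⌉₊ := fun k => Nat.one_le_iff_ne_zero.2 (by
    have : 0 < ⌈q ^ k⌉₊ := Nat.ceil_pos.2 (by positivity)
    omega)
  set S0 : ℝ := 2 * 2 ^ κ with hS0
  refine Pool.Agent.X67.LF.sparse_of_large ⌈S0⌉₊ hs0 (Pool.Agent.X67.LF.sparse_of_exc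
    (fun (a : Fin m → ℕ) j => (a j : ℤ))
    (fun X => ⋃ k ∈ range (⌊Real.log X / Real.log q⌋₊ + 1), {a | a ∈ Exceptional m ⌈q ^ k⌉₊ (κ + 1) D ∧ ⌈q ^ k⌉₊ ≤ X})
    hs0 ?_ ?_)
  · intro ε hε
    refine ⟨(1 / (ε * Real.log q) + 1) * |C|, fun X hX => ⟨?_, ?_⟩⟩
    · refine Set.Finite.biUnion (finite_toSet _) fun k _ => ?_
      exact (h _ (hN1 k)).1.subset fun a ha => ha.1
    have hX1 : (1 : ℝ) ≤ X := by exact_mod_cast hX
    have hX0 : (0 : ℝ) < X := by linarith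
    have hlX : 0 ≤ Real.log X := Real.log_nonneg hX1
    have hone : 1 ≤ (X : ℝ) ^ ε := Real.one_le_rpow hX1 hε.le
    have h1 : ∀ k ∈ range (⌊Real.log X / Real.log q⌋₊ + 1),
        (({a | a ∈ Exceptional m ⌈q ^ k⌉₊ (κ + 1) D ∧ ⌈q ^ k⌉₊ ≤ X}.ncard : ℕ) : ℝ) ≤
          |C| * (X : ℝ) ^ ((m : ℝ) - 1 + β) := by
      intro k _
      by_cases hk : ⌈q ^ k⌉₊ ≤ X
      · obtain ⟨h2, h3⟩ := h _ (hN1 k)
        have hsub : {a | a ∈ Exceptional m ⌈q ^ k⌉₊ (κ + 1) D ∧ ⌈q ^ k⌉₊ ≤ X} ⊆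
            Exceptional m ⌈q ^ k⌉₊ (κ + 1) D := fun a ha => ha.1
        have hkr : ((⌈q ^ k⌉₊ : ℕ) : ℝ) ≤ X := by exact_mod_cast hk
        calc (({a | a ∈ Exceptional m ⌈q ^ k⌉₊ (κ + 1) D ∧ ⌈q ^ k⌉₊ ≤ X}.ncard : ℕ) : ℝ)
            ≤ ((Exceptional m ⌈q ^ k⌉₊ (κ + 1) D).ncard : ℝ) := by
              exact_mod_cast Set.ncard_le_ncard hsub h2
          _ ≤ C * ((⌈q ^ k⌉₊ : ℕ) : ℝ) ^ ((m : ℝ) - 1 + β) := h3
          _ ≤ |C| * (X : ℝ) ^ ((m : ℝ) - 1 + β) :=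
              mul_le_mul (le_abs_self C) (Real.rpow_le_rpow (Nat.cast_nonneg _) hkr hs0)
                (Real.rpow_nonneg (Nat.cast_nonneg _) _) (abs_nonneg C)
      · have h4 : {a | a ∈ Exceptional m ⌈q ^ k⌉₊ (κ + 1) D ∧ ⌈q ^ k⌉₊ ≤ X} = ∅ :=
          Set.eq_empty_iff_forall_notMem.2 fun a ha => hk ha.2
        rw [h4, Set.ncard_empty, Nat.cast_zero]
        positivity
    have h5 : (((⋃ k ∈ range (⌊Real.log X / Real.log q⌋₊ + 1),
        {a | a ∈ Exceptional m ⌈q ^ k⌉₊ (κ + 1) D ∧ ⌈q ^ k⌉₊ ≤ X}).ncard : ℕ) : ℝ) ≤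
        ∑ k ∈ range (⌊Real.log X / Real.log q⌋₊ + 1),
          (({a | a ∈ Exceptional m ⌈q ^ k⌉₊ (κ + 1) D ∧ ⌈q ^ k⌉₊ ≤ X}.ncard : ℕ) : ℝ) := by
      exact_mod_cast Finset.set_ncard_biUnion_le _ _
    have h6 : ((⌊Real.log X / Real.log q⌋₊ : ℕ) : ℝ) ≤ Real.log X / Real.log q :=
      Nat.floor_le (by positivity)
    have h7 : Real.log X ≤ (X : ℝ) ^ ε / ε := Real.log_le_rpow_div hX0.le hε
    have h8 : (((⌊Real.log X / Real.log q⌋₊ + 1 : ℕ) : ℕ) : ℝ) ≤ (1 / (ε * Real.log q) + 1) * (X : ℝ) ^ ε := by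
      push_cast
      have h9 : Real.log X / Real.log q ≤ 1 / (ε * Real.log q) * (X : ℝ) ^ ε := by
        rw [div_le_iff₀ hlq]
        calc Real.log X ≤ (X : ℝ) ^ ε / ε := h7
          _ = 1 / (ε * Real.log q) * (X : ℝ) ^ ε * Real.log q := by field_simp
      linarith
    calc _ ≤ _ := h5
      _ ≤ ∑ _k ∈ range (⌊Real.log X / Real.log q⌋₊ + 1), |C| * (X : ℝ) ^ ((m : ℝ) - 1 + β) := sum_le_sum h1
      _ = (((⌊Real.log X / Real.log q⌋₊ + 1 : ℕ) : ℕ) : ℝ) * (|C| * (X : ℝ) ^ ((m : ℝ) - 1 + β)) := by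
          rw [sum_const, card_range, nsmul_eq_mul]
      _ ≤ (1 / (ε * Real.log q) + 1) * (X : ℝ) ^ ε * (|C| * (X : ℝ) ^ ((m : ℝ) - 1 + β)) :=
          mul_le_mul_of_nonneg_right h8 (by positivity)
      _ = (1 / (ε * Real.log q) + 1) * |C| * ((X : ℝ) ^ ((m : ℝ) - 1 + β) * (X : ℝ) ^ ε) := by ring
      _ = _ := by rw [← Real.rpow_add hX0]
  · rintro w ⟨hw, hwS⟩ X hw1 hwX
    have hw' : ¬ LowerBoundAt m κ D0 c w := hw
    unfold LowerBoundAt at hw'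
    push Not at hw'
    obtain ⟨hne, hbal, b, hb0, hb, hcon⟩ := hw'
    -- the smallest and the largest entry
    have : Nonempty (Fin m) := ⟨⟨0, hm⟩⟩
    obtain ⟨jmin, -, hjmin⟩ := Finset.exists_min_image Finset.univ (fun j => (w j).natAbs) Finset.univ_nonempty
    obtain ⟨jmax, hjmax⟩ := Pool.Agent.X67.LF.exists_max w hw1
    set a0 : ℕ := (w jmin).natAbs with ha0
    have ha1 : 1 ≤ a0 := Int.natAbs_pos.2 (hne jmin)
    have ha1r : (1 : ℝ) ≤ a0 := by exact_mod_cast ha1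
    have hcast : ∀ j, |(w j : ℝ)| = (((w j).natAbs : ℕ) : ℝ) := fun j => by
      rw [Nat.cast_natAbs, Int.cast_abs]
    have hle : ∀ j, (((w j).natAbs : ℕ) : ℝ) ≤ c * a0 := fun j => by
      have := hbal j jmin
      rwa [hcast, hcast] at this
    have hsz : (size w : ℝ) ≤ c * a0 := by
      rw [← hjmax]
      exact hle jmax
    have ha0X : a0 ≤ X := (Pool.Agent.X67.LF.natAbs_le w jmin).trans hwX
    -- the scale
    obtain ⟨k, hk1, hk2⟩ := exists_nat_pow_near ha1r hq1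
    have hqk : 1 ≤ q ^ k := one_le_pow₀ hq1.le
    have hNa : ⌈q ^ k⌉₊ ≤ a0 := Nat.ceil_le.2 hk1
    have hqN : q ^ k ≤ (⌈q ^ k⌉₊ : ℕ) := Nat.le_ceil _
    have hca : c * a0 ≤ 2 * ((⌈q ^ k⌉₊ : ℕ) : ℝ) := by
      have h1 : (a0 : ℝ) ≤ q ^ k * q := by
        rw [← pow_succ]
        exact hk2.le
      calc c * a0 ≤ c * (q ^ k * q) := mul_le_mul_of_nonneg_left h1 hc0.le
        _ = 2 * q ^ k := by
            rw [hq]
            field_simp
        _ ≤ _ := by linarith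
    have hN2 : (size w : ℝ) ≤ 2 * ((⌈q ^ k⌉₊ : ℕ) : ℝ) := hsz.trans hca
    have hNsz : ((⌈q ^ k⌉₊ : ℕ) : ℝ) ≤ size w := by
      have h1 : ⌈q ^ k⌉₊ ≤ size w := hNa.trans (Pool.Agent.X67.LF.natAbs_le w jmin)
      exact_mod_cast h1
    have hNp : (0 : ℝ) < ((⌈q ^ k⌉₊ : ℕ) : ℝ) := by linarith
    have hkr : k ∈ range (⌊Real.log X / Real.log q⌋₊ + 1) := by
      rw [mem_range, Nat.lt_succ_iff]
      apply Nat.le_floor
      rw [le_div_iff₀ hlq, ← Real.log_pow]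
      apply Real.log_le_log (by positivity)
      exact hk1.trans (by exact_mod_cast ha0X)
    refine ⟨fun j => (w j).natAbs, ?_, fun j => (Int.natAbs_natCast _).symm⟩
    refine Set.mem_biUnion hkr ⟨⟨fun j => ⟨?_, ?_⟩, b, hb0, fun j => ?_, ?_⟩, hNa.trans ha0X⟩
    · exact hNa.trans (hjmin j (Finset.mem_univ _))
    · have := (hle j).trans hca
      exact_mod_cast this
    · refine (hb j).trans ?_
      have h1 : (2 : ℝ) ^ κ ≤ ((⌈q ^ k⌉₊ : ℕ) : ℝ) := by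
        have h2 : S0 ≤ size w := (Nat.le_ceil S0).trans (by exact_mod_cast hwS)
        have h3 : 2 * (2 : ℝ) ^ κ ≤ 2 * ((⌈q ^ k⌉₊ : ℕ) : ℝ) := h2.trans hN2
        linarith
      calc (size w : ℝ) ^ κ ≤ (2 * ((⌈q ^ k⌉₊ : ℕ) : ℝ)) ^ κ := Real.rpow_le_rpow (Nat.cast_nonneg _) hN2 hκ
        _ = 2 ^ κ * ((⌈q ^ k⌉₊ : ℕ) : ℝ) ^ κ := Real.mul_rpow (by norm_num) (Nat.cast_nonneg _)
        _ ≤ ((⌈q ^ k⌉₊ : ℕ) : ℝ) * ((⌈q ^ k⌉₊ : ℕ) : ℝ) ^ κ :=
            mul_le_mul_of_nonneg_right h1 (Real.rpow_nonneg (Nat.cast_nonneg _) _)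
        _ = ((⌈q ^ k⌉₊ : ℕ) : ℝ) ^ (κ + 1) := by
            rw [Real.rpow_add hNp, Real.rpow_one]
            ring
    · have h4 : |∏ j, (((w j).natAbs : ℕ) : ℝ) ^ (b j) - 1| ≤ (size w : ℝ) ^ (-D0) := by
        refine le_trans (le_of_eq ?_) hcon
        congr 2
        exact prod_congr rfl fun j _ => by rw [hcast]
      refine h4.trans ?_
      have hszp : (0 : ℝ) < size w := lt_of_lt_of_le hNp hNsz
      calc (size w : ℝ) ^ (-D0) ≤ ((⌈q ^ k⌉₊ : ℕ) : ℝ) ^ (-D0) := by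
            rw [Real.rpow_neg hszp.le, Real.rpow_neg hNp.le]
            exact inv_anti₀ (by positivity) (Real.rpow_le_rpow hNp.le hNsz hD00)
        _ ≤ ((⌈q ^ k⌉₊ : ℕ) : ℝ) ^ (-D) :=
            Real.rpow_le_rpow_of_exponent_le (by exact_mod_cast hN1 k) (by linarith [le_max_left D 0])

end Pool.Agent.Results.MP_4eb8d9_nt.SmallLinearForms
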