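import Pool.Agent.Results.MP_4eb8d9_nt.AlmostAllTuples
import Pool.Agent.X174.WinRat

/-!
# Polynomial lower bounds for `|a_1 ^ b_1 ⋯ a_m ^ b_m - 1|` for ALL `a` in cubes around thin sequences of points

Let `m ≥ 1`, `κ ≥ 0` and `β > m / (m + 1)`. There is `B` such that for every sequence `v ≥ 1` of exponent of convergence at
most `τ` (for `v_i = (i + 1) ^ a` this is `1 / a`, for `v_i = b ^ i` it is `0`) and every `ρ < 1`, outside a set of
`x ∈ ℝ^m` of Hausdorff dimension at most `(m - 1 + β + τ) / (1 - ρ)` the following holds, if all `x_j` are positive and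
within a factor `2` of each other, for all but finitely many `i`: for ALL natural numbers `a_1, …, a_m` with
`|a_j - x_j v_i| ≤ v_i ^ ρ` and ALL integers `b_j`, not all zero, with `|b_j| ≤ v_i ^ κ`, one has
`|a_1 ^ b_1 ⋯ a_m ^ b_m - 1| > v_i ^ (-B)`. The number of exceptions is from the starting result `AlmostAllTuples`.
-/

set_option autoImplicit false

open Filter

namespace Pool.Agent.Results.MP_4eb8d9_nt.TuplesInCubes

open AlmostAllTuples (Exceptional)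

/-- the exponent of convergence of the sequence `v` is at most `τ` -/
def ExpLe (v : ℕ → ℝ) (τ : ℝ) : Prop := ∀ t : ℝ, τ < t → Summable (fun n : ℕ => (v n) ^ (-t))

/-- **Theorem.** Let `m ≥ 1`, `κ ≥ 0` and `β > m / (m + 1)`. There is `B` such that for every sequence `v ≥ 1` of exponent of
convergence at most `τ ≥ 0` and every `ρ < 1` there is a set `E ⊂ ℝ^m` of Hausdorff dimension at most
`(m - 1 + β + τ) / (1 - ρ)` such that for each `x` outside `E` with `0 < x_j < 2 x_k` for all `j`, `k`, for all but finitely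
many `i`, for ALL natural numbers `a_j` with `|a_j - x_j v_i| ≤ v_i ^ ρ` and ALL integers `b_j`, not all zero, with
`|b_j| ≤ v_i ^ κ`: `|∏ a_j ^ b_j - 1| > v_i ^ (-B)`. The sequences `v_i = (i + 1) ^ a` and `v_i = b ^ i` have exponent of
convergence at most `1 / a` and `0`. -/
theorem result :
    (∀ (m : ℕ), 1 ≤ m → ∀ κ β : ℝ, 0 ≤ κ → (m : ℝ) / ((m : ℝ) + 1) < β →
      ∃ B : ℝ, ∀ (v : ℕ → ℝ) (τ ρ : ℝ), (∀ i, 1 ≤ v i) → 0 ≤ τ → ExpLe v τ → ρ < 1 →
      ∃ E : Set (Fin m → ℝ), dimH E ≤ ENNReal.ofReal (((m : ℝ) - 1 + β + τ) / (1 - ρ)) ∧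
        ∀ x : Fin m → ℝ, x ∉ E → (∀ j k, 0 < x j ∧ x j < 2 * x k) → ∃ i₀ : ℕ, ∀ i : ℕ, i₀ ≤ i →
          ∀ a : Fin m → ℕ, (∀ j, |(a j : ℝ) - x j * v i| ≤ (v i) ^ ρ) →
            ∀ b : Fin m → ℤ, b ≠ 0 → (∀ j, |(b j : ℝ)| ≤ (v i) ^ κ) →
              (v i) ^ (-B) < |∏ j, (a j : ℝ) ^ (b j) - 1|) ∧
    (∀ a : ℝ, 0 < a → ExpLe (fun n : ℕ => ((n : ℝ) + 1) ^ a) (1 / a)) ∧
    (∀ b : ℝ, 1 < b → ExpLe (fun n : ℕ => b ^ n) 0) := by
  refine ⟨fun m hm κ β hκ hβ => ?_, fun κ hκ => Pool.Agent.Y854.GM.expLe_pow κ hκ,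
    fun b hb => Pool.Agent.Y854.GM.expLe_geom b hb⟩
  obtain ⟨D, C, h⟩ := AlmostAllTuples.result m hm (κ + 1) β (by linarith) hβ
  have hm1 : (1 : ℝ) ≤ m := by exact_mod_cast hm
  have hβ0 : 0 < β := lt_of_le_of_lt (by positivity) hβ
  have hs0 : 0 ≤ (m : ℝ) - 1 + β := by linarith
  set D0 : ℝ := max D 0 with hD0
  have hD00 : 0 ≤ D0 := le_max_right _ _
  refine ⟨D0 + 1, fun v τ ρ hv hτ hE hρ => ?_⟩
  have hvp : ∀ i, 0 < v i := fun i => lt_of_lt_of_le one_pos (hv i)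
  have hvt : Tendsto v atTop atTop := Pool.Agent.Y854.GM.tendsto_of_expLe hvp hτ hE
  have key : ∀ r : ℚ, ∃ E : Set (Fin m → ℝ), dimH E ≤ ENNReal.ofReal (((m : ℝ) - 1 + β + τ) / (1 - ρ)) ∧
      (0 < r → ∀ x : Fin m → ℝ, x ∉ E → ∃ i₀ : ℕ, ∀ i : ℕ, i₀ ≤ i →
        ∀ a ∈ Exceptional m ⌊(r : ℝ) * v i⌋₊ (κ + 1) D, ¬ ∀ j, |(a j : ℝ) - x j * v i| ≤ (v i) ^ ρ) := by
    intro r
    by_cases hr : 0 < r
    swap
    · exact ⟨∅, by simp, fun h => absurd h hr⟩
    have hr0 : (0 : ℝ) < r := by exact_mod_cast hr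
    obtain ⟨i₁, hi₁⟩ := (hvt.eventually_ge_atTop (1 / (r : ℝ))).exists_forall_of_atTop
    obtain ⟨E, hE1, hE2⟩ := Pool.Agent.X174.windowsVecV (κ := Fin m)
      (fun i => Exceptional m ⌊(r : ℝ) * v i⌋₊ (κ + 1) D) (fun _ a j => ((a j : ℕ) : ℝ)) hv hτ hE
      (s := (m : ℝ) - 1 + β) hs0 hρ (by
        intro ε hε
        refine ⟨|C| * (r : ℝ) ^ ((m : ℝ) - 1 + β), i₁, fun i hi => ?_⟩
        have h1 : 1 ≤ (r : ℝ) * v i := by
          have h2 := hi₁ i hi
          rw [div_le_iff₀ hr0] at h2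
          linarith
        have hY : 1 ≤ ⌊(r : ℝ) * v i⌋₊ := Nat.le_floor (by exact_mod_cast h1)
        obtain ⟨h3, h4⟩ := h _ hY
        refine ⟨h3, h4.trans ?_⟩
        have h5 : ((⌊(r : ℝ) * v i⌋₊ : ℕ) : ℝ) ≤ (r : ℝ) * v i := Nat.floor_le (by linarith)
        calc C * ((⌊(r : ℝ) * v i⌋₊ : ℕ) : ℝ) ^ ((m : ℝ) - 1 + β)
            ≤ |C| * ((r : ℝ) * v i) ^ ((m : ℝ) - 1 + β) :=
              mul_le_mul (le_abs_self C) (Real.rpow_le_rpow (Nat.cast_nonneg _) h5 hs0)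
                (Real.rpow_nonneg (Nat.cast_nonneg _) _) (abs_nonneg C)
          _ = |C| * (r : ℝ) ^ ((m : ℝ) - 1 + β) * (v i) ^ ((m : ℝ) - 1 + β) := by
              rw [Real.mul_rpow hr0.le (hvp i).le]
              ring
          _ ≤ _ := mul_le_mul_of_nonneg_left (Real.rpow_le_rpow_of_exponent_le (hv i) (by linarith))
              (mul_nonneg (abs_nonneg C) (Real.rpow_nonneg hr0.le _)))
    exact ⟨E, hE1, fun _ x hx => hE2 x hx⟩
  choose Es hEs1 hEs2 using key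
  refine ⟨⋃ r, Es r, ?_, fun x hx hxx => ?_⟩
  · rw [dimH_iUnion]
    exact iSup_le hEs1
  -- a rational number between half of the largest and the smallest coordinate
  have : Nonempty (Fin m) := ⟨⟨0, hm⟩⟩
  obtain ⟨jmax, -, hjmax⟩ := Finset.exists_max_image Finset.univ x Finset.univ_nonempty
  obtain ⟨jmin, -, hjmin⟩ := Finset.exists_min_image Finset.univ x Finset.univ_nonempty
  obtain ⟨r, hr1, hr2⟩ := exists_rat_btwn (show x jmax / 2 < x jmin by linarith [(hxx jmax jmin).2])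
  have hr0 : (0 : ℝ) < r := by
    have := (hxx jmax jmax).1
    linarith
  have hr0q : 0 < r := by exact_mod_cast hr0
  obtain ⟨i₀, hi₀⟩ := hEs2 r hr0q x (fun hm' => hx (Set.mem_iUnion.2 ⟨_, hm'⟩))
  -- the gaps
  set g : ℝ := min (x jmin - r) (2 * r - x jmax) with hg
  have hg0 : 0 < g := lt_min (by linarith) (by linarith)
  -- eventually `v ^ ρ + 2 ≤ g v`
  have hev1 : ∀ᶠ i in atTop, (v i) ^ ρ + 2 ≤ g * v i := by
    have h1 : Tendsto (fun i => (v i) ^ (1 - ρ)) atTop atTop :=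
      (tendsto_rpow_atTop (by linarith : 0 < 1 - ρ)).comp hvt
    filter_upwards [h1.eventually_ge_atTop (2 / g), hvt.eventually_ge_atTop (4 / g)] with i h2 h3
    have h4 : (v i) ^ ρ * (v i) ^ (1 - ρ) = v i := by
      rw [← Real.rpow_add (hvp i)]
      norm_num
    have h5 : (v i) ^ ρ * (2 / g) ≤ v i := by
      calc (v i) ^ ρ * (2 / g) ≤ (v i) ^ ρ * (v i) ^ (1 - ρ) :=
            mul_le_mul_of_nonneg_left h2 (Real.rpow_nonneg (hvp i).le _)
        _ = v i := h4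
    have h6 : (v i) ^ ρ ≤ g * v i / 2 := by
      rw [mul_div_assoc', div_le_iff₀ hg0] at h5
      linarith
    have h7 : 2 ≤ g * v i / 2 := by
      rw [div_le_iff₀ hg0] at h3
      linarith
    linarith
  have hev2 : ∀ᶠ i in atTop, (2 / r : ℝ) ^ (κ + 1) ≤ v i := hvt.eventually_ge_atTop _
  have hev3 : ∀ᶠ i in atTop, (r : ℝ) ^ D0 ≤ v i := hvt.eventually_ge_atTop _
  have hev4 : ∀ᶠ i in atTop, 2 / (r : ℝ) ≤ v i := hvt.eventually_ge_atTop _
  obtain ⟨i₂, hi₂⟩ := (hev1.and (hev2.and (hev3.and hev4))).exists_forall_of_atTop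
  refine ⟨max i₀ i₂, fun i hi a ha b hb hbκ => ?_⟩
  obtain ⟨k1, k2, k3, k4⟩ := hi₂ i ((le_max_right _ _).trans hi)
  by_contra hcon
  push Not at hcon
  have hvi := hvp i
  set Nn : ℕ := ⌊(r : ℝ) * v i⌋₊ with hNn
  have hN1 : (Nn : ℝ) ≤ r * v i := Nat.floor_le (by positivity)
  have hN2 : (r : ℝ) * v i < Nn + 1 := Nat.lt_floor_add_one _
  have h8 : 2 ≤ (r : ℝ) * v i := by
    rw [div_le_iff₀ hr0] at k4
    linarith
  have hN3 : (r : ℝ) * v i / 2 ≤ Nn := by linarith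
  have hN4 : (1 : ℝ) ≤ Nn := by linarith
  refine hi₀ i ((le_max_left _ _).trans hi) a ⟨fun j => ?_, b, hb, fun j => ?_, ?_⟩ ha
  · have h9 := abs_le.1 (ha j)
    have hxm := hjmin j (Finset.mem_univ _)
    have hxM := hjmax j (Finset.mem_univ _)
    have g1 : g ≤ x jmin - r := min_le_left _ _
    have g2 : g ≤ 2 * r - x jmax := min_le_right _ _
    constructor
    · have h10 : (Nn : ℝ) ≤ a j := by
        have : g * v i ≤ (x jmin - r) * v i := mul_le_mul_of_nonneg_right g1 hvi.le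
        have h11 : x jmin * v i ≤ x j * v i := mul_le_mul_of_nonneg_right hxm hvi.le
        nlinarith
      exact_mod_cast h10
    · have h10 : (a j : ℝ) ≤ 2 * Nn := by
        have : g * v i ≤ (2 * r - x jmax) * v i := mul_le_mul_of_nonneg_right g2 hvi.le
        have h11 : x j * v i ≤ x jmax * v i := mul_le_mul_of_nonneg_right hxM hvi.le
        nlinarith
      exact_mod_cast h10
  · refine (hbκ j).trans ?_
    calc (v i) ^ κ = (v i) ^ (κ + 1) * (v i)⁻¹ := by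
          rw [Real.rpow_add hvi, Real.rpow_one]
          field_simp
      _ ≤ (v i) ^ (κ + 1) * ((2 / r : ℝ) ^ (κ + 1))⁻¹ :=
          mul_le_mul_of_nonneg_left (inv_anti₀ (by positivity) k2) (Real.rpow_nonneg hvi.le _)
      _ = (r * v i / 2) ^ (κ + 1) := by
          rw [← div_eq_mul_inv, ← Real.div_rpow hvi.le (by positivity)]
          congr 1
          field_simp
      _ ≤ (Nn : ℝ) ^ (κ + 1) := Real.rpow_le_rpow (by positivity) hN3 (by linarith)
  · refine hcon.trans ?_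
    calc (v i) ^ (-(D0 + 1)) = (v i) ^ (-D0) * (v i)⁻¹ := by
          rw [neg_add, Real.rpow_add hvi, Real.rpow_neg_one]
      _ ≤ (v i) ^ (-D0) * ((r : ℝ) ^ D0)⁻¹ :=
          mul_le_mul_of_nonneg_left (inv_anti₀ (by positivity) k3) (Real.rpow_nonneg hvi.le _)
      _ = (r * v i) ^ (-D0) := by
          rw [Real.mul_rpow hr0.le hvi.le, Real.rpow_neg hr0.le]
          ring
      _ ≤ (Nn : ℝ) ^ (-D0) := by
          rw [Real.rpow_neg (by positivity), Real.rpow_neg (by positivity)]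
          exact inv_anti₀ (by positivity) (Real.rpow_le_rpow (by positivity) hN1 hD00)
      _ ≤ (Nn : ℝ) ^ (-D) := Real.rpow_le_rpow_of_exponent_le hN4 (by linarith [le_max_left D 0])

end Pool.Agent.Results.MP_4eb8d9_nt.TuplesInCubes
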